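import Pool.Agent.Helper33.DP.Sheet

set_option autoImplicit false

namespace Pool.Agent.Helper35.PL

open Finset Pool.Agent.Helper33.DP

open Classical in
/-- The maximal elements of a finite set. -/
noncomputable def mx (le : ℕ → ℕ → Prop) (U : Finset ℕ) : Finset ℕ :=
  U.filter (fun x => ∀ y ∈ U, le x y → y = x)

open Classical in
/-- The minimal elements of a finite set. -/
noncomputable def mn (le : ℕ → ℕ → Prop) (U : Finset ℕ) : Finset ℕ :=
  U.filter (fun x => ∀ y ∈ U, le y x → y = x)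

theorem mem_mx {le : ℕ → ℕ → Prop} {U : Finset ℕ} {x : ℕ} :
    x ∈ mx le U ↔ x ∈ U ∧ ∀ y ∈ U, le x y → y = x := by
  classical
  simp [mx]

theorem mem_mn {le : ℕ → ℕ → Prop} {U : Finset ℕ} {x : ℕ} :
    x ∈ mn le U ↔ x ∈ U ∧ ∀ y ∈ U, le y x → y = x := by
  classical
  simp [mn]

/-- The two extremal antichains have `w` elements. -/
theorem card_mx_mn {w : ℕ} {P : Set ℕ} {le : ℕ → ℕ → Prop} (h : PO P le w) {A B : Finset ℕ}
    (hA : ∀ a ∈ A, a ∈ P) (hB : ∀ a ∈ B, a ∈ P)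
    (aA : ∀ a ∈ A, ∀ b ∈ A, le a b → a = b) (aB : ∀ a ∈ B, ∀ b ∈ B, le a b → a = b)
    (cA : A.card = w) (cB : B.card = w) :
    (mx le (A ∪ B)).card = w ∧ (mn le (A ∪ B)).card = w := by
  classical
  have hU : ∀ a ∈ A ∪ B, a ∈ P := by
    intro a ha
    rcases mem_union.1 ha with h1 | h1
    · exact hA a h1
    · exact hB a h1
  have h1 : (mx le (A ∪ B)).card ≤ w := by
    refine h.width _ (fun a ha => hU a (mem_mx.1 ha).1) ?_
    intro a ha b hb hab hle
    exact hab ((mem_mx.1 ha).2 b (mem_mx.1 hb).1 hle).symm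
  have h2 : (mn le (A ∪ B)).card ≤ w := by
    refine h.width _ (fun a ha => hU a (mem_mn.1 ha).1) ?_
    intro a ha b hb hab hle
    exact hab ((mem_mn.1 hb).2 a (mem_mn.1 ha).1 hle)
  -- every element is maximal or minimal
  have h3 : A ∪ B ⊆ mx le (A ∪ B) ∪ mn le (A ∪ B) := by
    intro x hx
    by_contra hcon
    rw [mem_union, not_or] at hcon
    obtain ⟨c1, c2⟩ := hcon
    rw [mem_mx] at c1
    rw [mem_mn] at c2
    push Not at c1 c2
    obtain ⟨y, hy, hxy, hne⟩ := c1 hx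
    obtain ⟨z, hz, hzx, hne'⟩ := c2 hx
    have hzy : le z y := h.trans _ _ _ hzx hxy
    have hzy' : z ≠ y := by
      rintro rfl
      exact hne (h.antisymm _ _ hzx hxy)
    rcases mem_union.1 hx with x1 | x1 <;> rcases mem_union.1 hy with y1 | y1 <;>
      rcases mem_union.1 hz with z1 | z1
    · exact hne (aA _ x1 _ y1 hxy).symm
    · exact hne (aA _ x1 _ y1 hxy).symm
    · exact hne' (aA _ z1 _ x1 hzx)
    · exact hzy' (aB _ z1 _ y1 hzy)
    · exact hzy' (aA _ z1 _ y1 hzy)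
    · exact hne' (aB _ z1 _ x1 hzx)
    · exact hne (aB _ x1 _ y1 hxy).symm
    · exact hne (aB _ x1 _ y1 hxy).symm
  have h4 : A ∩ B ⊆ mx le (A ∪ B) ∩ mn le (A ∪ B) := by
    intro x hx
    obtain ⟨xA, xB⟩ := mem_inter.1 hx
    rw [mem_inter, mem_mx, mem_mn]
    refine ⟨⟨mem_union_left _ xA, ?_⟩, ⟨mem_union_left _ xA, ?_⟩⟩
    · intro y hy hle
      rcases mem_union.1 hy with y1 | y1
      · exact (aA _ xA _ y1 hle).symm
      · exact (aB _ xB _ y1 hle).symm
    · intro y hy hle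
      rcases mem_union.1 hy with y1 | y1
      · exact aA _ y1 _ xA hle
      · exact aB _ y1 _ xB hle
  have e1 := card_union_add_card_inter A B
  have e2 := card_union_add_card_inter (mx le (A ∪ B)) (mn le (A ∪ B))
  have e3 := card_le_card h3
  have e4 := card_le_card h4
  omega

/-- BETW, the new level. -/
theorem BETW : ST_BETW := by
  classical
  intro w P le L L' M n h hL hL' hM hLL ⟨m, hm⟩ ⟨a0, ha0⟩ ⟨b0, hb0⟩
  -- the finite sets
  have inj : ∀ X : Fin w → ℕ, Anti P le X → Function.Injective X := by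
    intro X hX i j hij
    by_contra hne
    exact hX.2 i j hne (hij ▸ h.refl _ (hX.1 i))
  have fin : ∀ X : Fin w → ℕ, Anti P le X → (∀ a ∈ univ.image X, a ∈ P) ∧
      (∀ a ∈ univ.image X, ∀ b ∈ univ.image X, le a b → a = b) ∧ (univ.image X).card = w := by
    intro X hX
    refine ⟨?_, ?_, ?_⟩
    · intro a ha
      obtain ⟨i, -, rfl⟩ := mem_image.1 ha
      exact hX.1 i
    · intro a ha b hb hle
      obtain ⟨i, -, rfl⟩ := mem_image.1 ha
      obtain ⟨j, -, rfl⟩ := mem_image.1 hb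
      by_contra hne
      exact hX.2 i j (fun e => hne (by rw [e])) hle
    · rw [card_image_of_injective _ (inj X hX), card_univ, Fintype.card_fin]
  obtain ⟨L1, L2, L3⟩ := fin L hL
  obtain ⟨K1, K2, K3⟩ := fin L' hL'
  obtain ⟨M1, M2, M3⟩ := fin M hM
  set FL := univ.image L with hFL
  set FK := univ.image L' with hFK
  set FM := univ.image M with hFM
  -- comparability with an antichain of full size
  have cmp : ∀ S : Finset ℕ, (∀ a ∈ S, a ∈ P) → (∀ a ∈ S, ∀ b ∈ S, le a b → a = b) → S.card = w →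
      ∀ x ∈ P, ∃ s ∈ S, le x s ∨ le s x := by
    intro S S1 S2 S3 x hx
    by_cases hxS : x ∈ S
    · exact ⟨x, hxS, Or.inl (h.refl x hx)⟩
    by_contra hcon
    push Not at hcon
    have := h.width (insert x S) (by
      intro a ha
      rcases mem_insert.1 ha with rfl | h1
      · exact hx
      · exact S1 a h1) (by
      intro a ha b hb hab hle
      rcases mem_insert.1 ha with rfl | h1 <;> rcases mem_insert.1 hb with rfl | h2
      · exact hab rfl
      · exact (hcon b h2).1 hle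
      · exact (hcon a h1).2 hle
      · exact hab (S2 a h1 b h2 hle))
    rw [card_insert_of_notMem hxS, S3] at this
    omega
  -- the join of M and L
  have J3 := (card_mx_mn h M1 L1 M2 L2 M3 L3).1
  set J := mx le (FM ∪ FL) with hJ
  have J1 : ∀ a ∈ J, a ∈ P := by
    intro a ha
    rcases mem_union.1 (mem_mx.1 ha).1 with h1 | h1
    · exact M1 a h1
    · exact L1 a h1
  have J2 : ∀ a ∈ J, ∀ b ∈ J, le a b → a = b := by
    intro a ha b hb hle
    exact ((mem_mx.1 ha).2 b (mem_mx.1 hb).1 hle).symm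
  have J4 : ∀ a ∈ FL, ∃ j ∈ J, le a j := by
    intro a ha
    obtain ⟨s, hs, h1 | h1⟩ := cmp J J1 J2 J3 a (L1 a ha)
    · exact ⟨s, hs, h1⟩
    · have : a = s := (mem_mx.1 hs).2 a (mem_union_right _ ha) h1
      exact ⟨s, hs, by rw [this]; exact h.refl _ (J1 s hs)⟩
  -- the meet with L'
  have X3 := (card_mx_mn h J1 K1 J2 K2 J3 K3).2
  set S := mn le (J ∪ FK) with hS
  have X1 : ∀ a ∈ S, a ∈ P := by
    intro a ha
    rcases mem_union.1 (mem_mn.1 ha).1 with h1 | h1
    · exact J1 a h1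
    · exact K1 a h1
  have X2 : ∀ a ∈ S, ∀ b ∈ S, le a b → a = b := by
    intro a ha b hb hle
    exact (mem_mn.1 hb).2 a (mem_mn.1 ha).1 hle
  have nS : n ∈ S := by
    have nM : n ∈ FM := by rw [hFM]; exact mem_image.2 ⟨m, mem_univ _, hm⟩
    have nJ : n ∈ J := by
      refine mem_mx.2 ⟨mem_union_left _ nM, ?_⟩
      intro y hy hle
      rcases mem_union.1 hy with h1 | h1
      · exact (M2 n nM y h1 hle).symm
      · have h2 : L a0 = y :=
          L2 _ (mem_image.2 ⟨a0, mem_univ _, rfl⟩) _ h1 (h.trans _ _ _ ha0 hle)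
        rw [h2] at ha0
        exact h.antisymm _ _ ha0 hle
    refine mem_mn.2 ⟨mem_union_left _ nJ, ?_⟩
    intro y hy hle
    rcases mem_union.1 hy with h1 | h1
    · exact J2 y h1 n nJ hle
    · have h2 : y = L' b0 :=
        K2 _ h1 _ (mem_image.2 ⟨b0, mem_univ _, rfl⟩) (h.trans _ _ _ hle hb0)
      rw [← h2] at hb0
      exact h.antisymm _ _ hle hb0
  have SL : ∀ a ∈ FL, ∃ s ∈ S, le a s := by
    intro a ha
    obtain ⟨s, hs, h1 | h1⟩ := cmp S X1 X2 X3 a (L1 a ha)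
    · exact ⟨s, hs, h1⟩
    · refine ⟨s, hs, ?_⟩
      rcases mem_union.1 (mem_mn.1 hs).1 with h2 | h2
      · obtain ⟨j, hj, h3⟩ := J4 a ha
        have h4 : s = j := J2 s h2 j hj (h.trans _ _ _ h1 h3)
        rw [h4]; exact h3
      · obtain ⟨i, -, rfl⟩ := mem_image.1 ha
        obtain ⟨b, hb⟩ := hLL i
        have h4 : s = L' b :=
          K2 s h2 _ (mem_image.2 ⟨b, mem_univ _, rfl⟩) (h.trans _ _ _ h1 hb)
        rw [h4]; exact hb
  have SK : ∀ s ∈ S, ∃ b ∈ FK, le s b := by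
    intro s hs
    obtain ⟨b, hb, h1 | h1⟩ := cmp FK K1 K2 K3 s (X1 s hs)
    · exact ⟨b, hb, h1⟩
    · have : b = s := (mem_mn.1 hs).2 b (mem_union_right _ hb) h1
      exact ⟨b, hb, by rw [this]; exact h.refl _ (X1 s hs)⟩
  -- the enumeration
  let e := S.equivFinOfCardEq X3
  have he : ∀ i, ((e.symm i : S) : ℕ) ∈ S := fun i => (e.symm i).2
  have hsur : ∀ s ∈ S, ∃ i, ((e.symm i : S) : ℕ) = s := by
    intro s hs
    exact ⟨e ⟨s, hs⟩, by simp⟩
  refine ⟨fun i => ((e.symm i : S) : ℕ), ⟨fun i => X1 _ (he i), ?_⟩, ?_, ?_, ?_⟩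
  · intro i j hij hle
    have h1 := X2 _ (he i) _ (he j) hle
    exact hij (e.symm.injective (Subtype.ext h1))
  · exact hsur n nS
  · intro a
    obtain ⟨s, hs, h1⟩ := SL (L a) (mem_image.2 ⟨a, mem_univ _, rfl⟩)
    obtain ⟨i, hi⟩ := hsur s hs
    exact ⟨i, by simp only [hi]; exact h1⟩
  · intro i
    obtain ⟨b, hb, h1⟩ := SK _ (he i)
    obtain ⟨j, -, rfl⟩ := mem_image.1 hb
    exact ⟨j, h1⟩

end Pool.Agent.Helper35.PL
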